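import Pool.Agent.H44.EHN.Stmts

/-! Project EHN: row REL. -/

set_option autoImplicit false

open Classical

namespace EHN

theorem rel_W (L H x0 : ℕ) (a b q : ℕ → ℕ) (B : Finset ℕ) (hB : B ⊆ Finset.range L)
    (h1 : ∀ i < L, x0 ≤ a i ∧ a i < b i ∧ b i ≤ x0 + H ∧ (q i).Prime ∧ q i ∣ b i ∧ H < q i)
    (h2 : ∀ i j, i < j → j < L → b i < a j) (hx : 1 ≤ x0) :
    ∏ i ∈ B, ∏ k ∈ Finset.Ioc (a i) (b i), k ≤ (x0 + H) ^ H := by
  have hdis : (B : Set ℕ).PairwiseDisjoint (fun i => Finset.Ioc (a i) (b i)) := by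
    intro i hi j hj hij
    have hiL := Finset.mem_range.mp (hB hi)
    have hjL := Finset.mem_range.mp (hB hj)
    show Disjoint (Finset.Ioc (a i) (b i)) (Finset.Ioc (a j) (b j))
    rw [Finset.disjoint_left]
    intro k hk hk'
    rw [Finset.mem_Ioc] at hk hk'
    rcases lt_or_gt_of_ne hij with h | h
    · have := h2 i j h hjL
      omega
    · have := h2 j i h hiL
      omega
  have hcard : (B.biUnion (fun i => Finset.Ioc (a i) (b i))).card ≤ H := by
    have h3 : B.biUnion (fun i => Finset.Ioc (a i) (b i)) ⊆ Finset.Ioc x0 (x0 + H) := by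
      intro k hk
      rw [Finset.mem_biUnion] at hk
      obtain ⟨i, hi, hk⟩ := hk
      have hiL := Finset.mem_range.mp (hB hi)
      obtain ⟨g1, g2, g3, -⟩ := h1 i hiL
      rw [Finset.mem_Ioc] at hk ⊢
      omega
    have h4 := Finset.card_le_card h3
    rw [Nat.card_Ioc] at h4
    omega
  have hprod : ∏ i ∈ B, ∏ k ∈ Finset.Ioc (a i) (b i), k =
      ∏ k ∈ B.biUnion (fun i => Finset.Ioc (a i) (b i)), k :=
    (Finset.prod_biUnion hdis).symm
  rw [hprod]
  have h5 : ∏ k ∈ B.biUnion (fun i => Finset.Ioc (a i) (b i)), k ≤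
      (x0 + H) ^ (B.biUnion (fun i => Finset.Ioc (a i) (b i))).card := by
    apply Finset.prod_le_pow_card
    intro k hk
    rw [Finset.mem_biUnion] at hk
    obtain ⟨i, hi, hk⟩ := hk
    have hiL := Finset.mem_range.mp (hB hi)
    obtain ⟨g1, g2, g3, -⟩ := h1 i hiL
    rw [Finset.mem_Ioc] at hk
    omega
  exact h5.trans (Nat.pow_le_pow_right (by omega) hcard)

theorem rel_thm (hPIG : PIGStmt) (hUNQ : UNQStmt) (hCL1 : CL1Stmt) (hCL2 : CL2Stmt)
    (hEXB : EXBStmt) : RELStmt := by
  intro L H x0 Y E a b q T ea eb hx h1 h2 hY hA hB h8 hYb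
  by_contra hcon
  rw [not_le] at hcon
  obtain ⟨s, s', hs, hs', hne, hsum⟩ := hPIG L E T ea eb (by
    intro i hi m hm
    refine ⟨le_trans ?_ (hA i hi).2, le_trans ?_ (hB i hi).2⟩
    · exact Finset.single_le_sum (f := fun m => ea i m) (fun _ _ => Nat.zero_le _) hm
    · exact Finset.single_le_sum (f := fun m => eb i m) (fun _ _ => Nat.zero_le _) hm) hcon
  -- L and E are positive
  have hL : 1 ≤ L := by
    by_contra h
    have h0 : L = 0 := by omega
    subst h0
    apply hne
    rw [Finset.range_zero, Finset.subset_empty] at hs hs'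
    rw [hs, hs']
  have hE : 1 ≤ E := by
    by_contra h
    have h0 : E = 0 := by omega
    obtain ⟨g1, g2⟩ := hA 0 (by omega)
    rw [h0, Nat.le_zero, Finset.sum_eq_zero_iff] at g2
    have g3 : ∏ m ∈ T, (m + 1 + a 0) ^ ea 0 m = 1 := by
      apply Finset.prod_eq_one
      intro m hm
      rw [g2 m hm, pow_zero]
    rw [g3] at g1
    have := Nat.factorial_pos (a 0)
    omega
  have hYpos : 1 ≤ Y := by
    have g1 : 1 ≤ (x0 + H) ^ (H + 1) := Nat.one_le_pow _ _ (by omega)
    have g2 : 1 ≤ L * E := Nat.one_le_iff_ne_zero.mpr (by positivity)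
    calc 1 ≤ 8 * (L * E) * (x0 + H) ^ (H + 1) := by nlinarith
      _ ≤ Y := hYb
  have hF : 1 ≤ x0.factorial := Nat.factorial_pos x0
  -- the main step
  have key : ∀ s s' : Finset ℕ, s ⊆ Finset.range L → s' ⊆ Finset.range L →
      (∀ m ∈ T, ∑ i ∈ Finset.range L, (if i ∈ s then eb i m else ea i m) =
        ∑ i ∈ Finset.range L, (if i ∈ s' then eb i m else ea i m)) →
      ¬ (∏ i ∈ s' \ s, ∏ k ∈ Finset.Ioc (a i) (b i), k <
        ∏ i ∈ s \ s', ∏ k ∈ Finset.Ioc (a i) (b i), k) := by
    intro s s' hs hs' hsum hlt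
    set U := ∏ i ∈ s \ s', ∏ k ∈ Finset.Ioc (a i) (b i), k with hU
    set V := ∏ i ∈ s' \ s, ∏ k ∈ Finset.Ioc (a i) (b i), k with hV
    have hXs : ∀ t : Finset ℕ, ∏ i ∈ Finset.range L, ((if i ∈ t then b i else a i).factorial + 1) =
        ∏ i ∈ Finset.range L, ∏ m ∈ T, (m + 1 + (if i ∈ t then b i else a i)) ^
          (if i ∈ t then eb i m else ea i m) := by
      intro t
      apply Finset.prod_congr rfl
      intro i hi
      have hiL := Finset.mem_range.mp hi
      by_cases hit : i ∈ t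
      · simp only [hit, if_true]
        exact (hB i hiL).1
      · simp only [hit, if_false]
        exact (hA i hiL).1
    have c1 := hCL1 L Y (x0 + H) E T (fun i => if i ∈ s then b i else a i)
      (fun i => if i ∈ s' then b i else a i) (fun i m => if i ∈ s then eb i m else ea i m)
      (fun i m => if i ∈ s' then eb i m else ea i m) hY (by
        intro i hi
        obtain ⟨g1, g2, g3, -⟩ := h1 i hi
        show (if i ∈ s then b i else a i) ≤ x0 + H
        split_ifs <;> omega) hsum (by
        intro i hi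
        by_cases his : i ∈ s
        · simp only [his, if_true]
          exact (hB i hi).2
        · simp only [his, if_false]
          exact (hA i hi).2)
    have c1' : (∏ i ∈ Finset.range L, ((if i ∈ s then b i else a i).factorial + 1)) *
        Y ^ (L * E) ≤ (∏ i ∈ Finset.range L, ((if i ∈ s' then b i else a i).factorial + 1)) *
        (Y + (x0 + H)) ^ (L * E) := by
      rw [hXs s, hXs s']
      exact c1
    have c2 := hCL2 L x0 a b s s' hs hs' (fun i hi => ⟨(h1 i hi).1, (h1 i hi).2.1⟩)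
    rw [← hU, ← hV] at c2
    set X := ∏ i ∈ Finset.range L, ((if i ∈ s then b i else a i).factorial + 1) with hX
    set X' := ∏ i ∈ Finset.range L, ((if i ∈ s' then b i else a i).factorial + 1) with hX'
    have hX'pos : 0 < X' := Finset.prod_pos (fun i _ => Nat.succ_pos _)
    have c3 : X' * (U * x0.factorial ^ L * Y ^ (L * E)) ≤
        X' * (V * (x0.factorial + 1) ^ L * (Y + (x0 + H)) ^ (L * E)) := by
      calc X' * (U * x0.factorial ^ L * Y ^ (L * E))
          = (X' * U * x0.factorial ^ L) * Y ^ (L * E) := by ring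
        _ ≤ (X * V * (x0.factorial + 1) ^ L) * Y ^ (L * E) := Nat.mul_le_mul_right _ c2
        _ = (X * Y ^ (L * E)) * (V * (x0.factorial + 1) ^ L) := by ring
        _ ≤ (X' * (Y + (x0 + H)) ^ (L * E)) * (V * (x0.factorial + 1) ^ L) :=
            Nat.mul_le_mul_right _ c1'
        _ = _ := by ring
    have c4 := Nat.le_of_mul_le_mul_left c3 hX'pos
    have hVpos : 0 < V := by
      rw [hV]
      apply Finset.prod_pos
      intro i hi
      apply Finset.prod_pos
      intro k hk
      rw [Finset.mem_Ioc] at hk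
      omega
    have hVW : V ≤ (x0 + H) ^ H := rel_W L H x0 a b q (s' \ s)
      (Finset.sdiff_subset.trans hs') h1 h2 hx
    have c5 := hEXB V ((x0 + H) ^ H) L (L * E) x0.factorial Y (x0 + H) hVpos hVW hF hYpos h8 (by
      calc 8 * (L * E) * ((x0 + H) ^ H * (x0 + H)) = 8 * (L * E) * (x0 + H) ^ (H + 1) := by
            rw [pow_succ]
        _ ≤ Y := hYb)
    have c6 : (V + 1) * x0.factorial ^ L * Y ^ (L * E) ≤ U * x0.factorial ^ L * Y ^ (L * E) :=
      Nat.mul_le_mul_right _ (Nat.mul_le_mul_right _ hlt)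
    omega
  have hU := hUNQ L H x0 a b q (s \ s') (s' \ s) (Finset.sdiff_subset.trans hs)
    (Finset.sdiff_subset.trans hs') (by
      rw [Finset.disjoint_left]
      intro i hi hi'
      exact (Finset.mem_sdiff.mp hi).2 (Finset.mem_sdiff.mp hi').1) (by
      by_contra hem
      rw [Finset.not_nonempty_iff_eq_empty, Finset.union_eq_empty, Finset.sdiff_eq_empty_iff_subset,
        Finset.sdiff_eq_empty_iff_subset] at hem
      exact hne (Finset.Subset.antisymm hem.1 hem.2)) h1 h2
  rcases lt_or_gt_of_ne hU with h | h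
  · exact key s' s hs' hs (fun m hm => (hsum m hm).symm) h
  · exact key s s' hs hs' hsum h

end EHN
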